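import Pool.Agent.Helper12.NK.St

/-!
# Project NK (MP_d63854_co): module FPA, common vertices of faces
-/

set_option autoImplicit false

namespace Pool.Agent.Helper47.NK

open Pool.Agent.Helper12.NK
open Pool.Agent.Helper51.AJ (Planar Con Tch con_nonempty con_singleton con_pair con_union tch_symm tch_mono)

variable {V : Type}

theorem con_inl {G : SimpleGraph V} {U S : Set V} (h : Con G S) (hS : S ⊆ U) :
    Con (plus G U) (Sum.inl '' S) := by
  have h' : (G.induce S).Connected := h
  refine SimpleGraph.Connected.map (G := G.induce S) (H := (plus G U).induce (Sum.inl '' S))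
    ⟨fun x => ⟨Sum.inl x.1, Set.mem_image_of_mem _ x.2⟩, ?_⟩ ?_ h'
  · intro a b hab
    exact ⟨hab, hS a.2, hS b.2⟩
  · rintro ⟨_, x, hx, rfl⟩
    exact ⟨⟨x, hx⟩, rfl⟩

theorem tch_inl {G : SimpleGraph V} {U S T : Set V} (h : Tch G S T) (hS : S ⊆ U) (hT : T ⊆ U) :
    Tch (plus G U) (Sum.inl '' S) (Sum.inl '' T) := by
  obtain ⟨x, hx, y, hy, hxy⟩ := h
  exact ⟨_, Set.mem_image_of_mem _ hx, _, Set.mem_image_of_mem _ hy, hxy, hS hx, hT hy⟩

theorem tch_single {G : SimpleGraph V} {U : Set V} {x : V} {T : Set V} (h : Tch G {x} T) (hx : x ∈ U)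
    (hT : T ⊆ U) : Tch (plus G U) {Sum.inl x} (Sum.inl '' T) := by
  have := tch_inl h (Set.singleton_subset_iff.2 hx) hT
  rwa [Set.image_singleton] at this

theorem tch_face {G : SimpleGraph V} {U : Set V} {x : V} {F : Set V} (hF : IsFace G U F) (hx : x ∈ F) :
    Tch (plus G U) {Sum.inl x} {Sum.inr ⟨F, hF⟩} := ⟨_, rfl, _, rfl, hx⟩

theorem tch_face_set {G : SimpleGraph V} {U S : Set V} {x : V} {F : Set V} (hF : IsFace G U F) (hx : x ∈ F)
    (hS : x ∈ S) : Tch (plus G U) (Sum.inl '' S) {Sum.inr ⟨F, hF⟩} :=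
  ⟨_, Set.mem_image_of_mem _ hS, _, rfl, hx⟩

theorem face_sub {G : SimpleGraph V} {U F : Set V} (hF : IsFace G U F) : F ⊆ U := by
  obtain ⟨m, c, hc, rfl⟩ := hF
  exact hc.2.2.1

theorem face_third {G : SimpleGraph V} {U F : Set V} (hF : IsFace G U F) (p q : V) :
    ∃ r ∈ F, r ≠ p ∧ r ≠ q := by
  obtain ⟨m, c, hc, rfl⟩ := hF
  obtain ⟨hm, hinj, -⟩ := hc
  have : NeZero m := ⟨by omega⟩
  by_contra hcon
  push Not at hcon
  have hsub : Set.range c ⊆ {p, q} := by
    intro r hr
    by_cases h : r = p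
    · exact Or.inl h
    · exact Or.inr (hcon r hr h)
  have h1 : (Set.range c).ncard ≤ ({p, q} : Set V).ncard := Set.ncard_le_ncard hsub (Set.toFinite _)
  have h2 : (Set.range c).ncard = m := by
    rw [← Set.image_univ, Set.ncard_image_of_injective _ hinj, Set.ncard_univ, Nat.card_zmod]
  have h3 : ({p, q} : Set V).ncard ≤ 2 := Set.ncard_insert_le _ _ |>.trans (by simp)
  omega

/-- an arc of a cycle -/
def arc {m : ℕ} (c : ZMod m → V) (i : ZMod m) (n : ℕ) : Set V := {x | ∃ t : ℕ, t ≤ n ∧ x = c (i + t)}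

theorem con_arc {G : SimpleGraph V} {m : ℕ} {c : ZMod m → V} (h : ∀ i, G.Adj (c i) (c (i + 1))) (i : ZMod m)
    (n : ℕ) : Con G (arc c i n) := by
  induction n with
  | zero =>
    have : arc c i 0 = {c i} := by
      ext x
      constructor
      · rintro ⟨t, ht, rfl⟩
        obtain rfl : t = 0 := by omega
        simp
      · rintro rfl
        exact ⟨0, le_rfl, by simp⟩
    rw [this]
    exact con_singleton G _
  | succ n ih =>
    have : arc c i (n + 1) = arc c i n ∪ {c (i + (n + 1 : ℕ))} := by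
      ext x
      constructor
      · rintro ⟨t, ht, rfl⟩
        rcases Nat.lt_or_ge n t with h1 | h1
        · obtain rfl : t = n + 1 := by omega
          exact Or.inr rfl
        · exact Or.inl ⟨t, h1, rfl⟩
      · rintro (⟨t, ht, rfl⟩ | rfl)
        · exact ⟨t, by omega, rfl⟩
        · exact ⟨n + 1, le_rfl, rfl⟩
    rw [this]
    refine con_union ih (con_singleton G _) ⟨c (i + n), ⟨n, le_rfl, rfl⟩, _, rfl, ?_⟩
    have := h (i + n)
    rwa [add_assoc, ← Nat.cast_succ] at this

theorem inl_disj {β : Type} {S T : Set V} (h : Disjoint S T) :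
    Disjoint (Sum.inl '' S : Set (V ⊕ β)) (Sum.inl '' T) :=
  (Set.disjoint_image_iff Sum.inl_injective).2 h

theorem inl_notin {β : Type} {S : Set V} {x : V} (h : x ∉ S) :
    (Sum.inl x : V ⊕ β) ∉ (Sum.inl '' S : Set (V ⊕ β)) := by
  rintro ⟨y, hy, h1⟩
  exact h (Sum.inl_injective h1 ▸ hy)

theorem inr_notin {β : Type} {S : Set V} {x : β} : (Sum.inr x : V ⊕ β) ∉ (Sum.inl '' S : Set (V ⊕ β)) := by
  rintro ⟨y, hy, h1⟩
  cases h1

theorem disj_inr {β : Type} {S : Set V} {x : β} :
    Disjoint (Sum.inl '' S : Set (V ⊕ β)) {Sum.inr x} := Set.disjoint_singleton_right.2 inr_notin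

theorem kc_con {G : SimpleGraph V} {U : Set V} (hk : Kc 3 G U) (p q : V) : Con G (U \ {p, q}) :=
  hk.2 _ (lt_of_le_of_lt (Set.ncard_insert_le _ _ |>.trans (by simp) : _ ≤ 2) (by norm_num))

theorem hFPA : StKCA → StKCB → StPAR → StMNR → StPLS → StFPA := by
  intro hKCA hKCB hPAR hMNR hPLS V _ G U hk hpl
  have hP := hMNR _ (plus G U) (hPLS V G U hk hpl)
  refine ⟨?_, ?_, ?_⟩
  · -- (1)
    intro F F' hF hF' hne x y z hx hy hz hx' hy' hz' hxy hyz hxz
    have hxU := face_sub hF hx
    have hyU := face_sub hF hy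
    have hzU := face_sub hF hz
    have hS : ({x, y, z} : Set V) ⊆ U := by
      rintro w (rfl | rfl | rfl)
      · exact hxU
      · exact hyU
      · exact hzU
    have hcard : ({x, y, z} : Set V).ncard = 3 := by
      rw [Set.ncard_eq_three]
      exact ⟨x, y, z, hxy, hxz, hyz, rfl⟩
    obtain ⟨K, hKU, hKc, hKt⟩ := ((hKCB V G U).1 3 {x, y, z} hk hS hcard).1
    have hKU' : K ⊆ U := fun w hw => (hKU hw).1
    have hKx : ∀ s ∈ ({x, y, z} : Set V), s ∉ K := fun s hs hsK => (hKU hsK).2 hs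
    have mx : x ∈ ({x, y, z} : Set V) := by simp
    have my : y ∈ ({x, y, z} : Set V) := by simp
    have mz : z ∈ ({x, y, z} : Set V) := by simp
    have hFne : (⟨F, hF⟩ : {F : Set V // IsFace G U F}) ≠ ⟨F', hF'⟩ := fun h => hne (congrArg Subtype.val h)
    have hxy' : (Sum.inl x : V ⊕ {F : Set V // IsFace G U F}) ≠ Sum.inl y := fun h => hxy (Sum.inl_injective h)
    have hxz' : (Sum.inl x : V ⊕ {F : Set V // IsFace G U F}) ≠ Sum.inl z := fun h => hxz (Sum.inl_injective h)
    have hyz' : (Sum.inl y : V ⊕ {F : Set V // IsFace G U F}) ≠ Sum.inl z := fun h => hyz (Sum.inl_injective h)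
    have hFne' : (Sum.inr ⟨F, hF⟩ : V ⊕ {F : Set V // IsFace G U F}) ≠ Sum.inr ⟨F', hF'⟩ :=
      fun h => hFne (Sum.inr_injective h)
    refine hP.2 ![{Sum.inl x}, {Sum.inl y}, {Sum.inl z}] ![{Sum.inr ⟨F, hF⟩}, {Sum.inr ⟨F', hF'⟩}, Sum.inl '' K]
      ?_ ?_ ?_ ?_ ?_ ?_
    · intro i
      fin_cases i <;> exact con_singleton _ _
    · intro i
      fin_cases i
      · exact con_singleton _ _
      · exact con_singleton _ _
      · exact con_inl hKc hKU'
    · intro i j hij
      fin_cases i <;> fin_cases j <;> first | exact absurd rfl hij | exact Set.disjoint_singleton.2 (by assumption) |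
        exact (Set.disjoint_singleton.2 (by assumption)).symm
    · intro i j hij
      fin_cases i <;> fin_cases j <;> first | exact absurd rfl hij | exact Set.disjoint_singleton.2 (by assumption) |
        exact (Set.disjoint_singleton.2 (by assumption)).symm | exact disj_inr | exact disj_inr.symm
    · intro i j
      fin_cases i <;> fin_cases j
      · exact Set.disjoint_singleton.2 Sum.inl_ne_inr
      · exact Set.disjoint_singleton.2 Sum.inl_ne_inr
      · exact Set.disjoint_singleton_left.2 (inl_notin (hKx _ mx))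
      · exact Set.disjoint_singleton.2 Sum.inl_ne_inr
      · exact Set.disjoint_singleton.2 Sum.inl_ne_inr
      · exact Set.disjoint_singleton_left.2 (inl_notin (hKx _ my))
      · exact Set.disjoint_singleton.2 Sum.inl_ne_inr
      · exact Set.disjoint_singleton.2 Sum.inl_ne_inr
      · exact Set.disjoint_singleton_left.2 (inl_notin (hKx _ mz))
    · intro i j
      fin_cases i <;> fin_cases j
      · exact tch_face hF hx
      · exact tch_face hF' hx'
      · exact tch_single (hKt _ mx) hxU hKU'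
      · exact tch_face hF hy
      · exact tch_face hF' hy'
      · exact tch_single (hKt _ my) hyU hKU'
      · exact tch_face hF hz
      · exact tch_face hF' hz'
      · exact tch_single (hKt _ mz) hzU hKU'
  · -- (2)
    intro F F' hF hF' hne p q hp hq hp' hq' hpq
    by_contra hadj
    have hpU := face_sub hF hp
    have hqU := face_sub hF hq
    have hFne' : (Sum.inr ⟨F, hF⟩ : V ⊕ {F : Set V // IsFace G U F}) ≠ Sum.inr ⟨F', hF'⟩ :=
      fun h => hne (congrArg Subtype.val (Sum.inr_injective h))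
    have hpq' : (Sum.inl p : V ⊕ {F : Set V // IsFace G U F}) ≠ Sum.inl q := fun h => hpq (Sum.inl_injective h)
    obtain ⟨m, c, ⟨hm, hinj, hcU, hcadj, -⟩, hcF⟩ := id hF
    have : NeZero m := ⟨by omega⟩
    have hrF : ∀ i, c i ∈ F := fun i => hcF ▸ Set.mem_range_self i
    obtain ⟨i, hi⟩ : p ∈ Set.range c := hcF ▸ hp
    obtain ⟨j, hj⟩ : q ∈ Set.range c := hcF ▸ hq
    have hnext : ∀ i, G.Adj (c i) (c (i + 1)) := fun i => (hcadj i (i + 1)).2 (Or.inl rfl)
    obtain ⟨k, hkm, hjk⟩ : ∃ k : ℕ, k < m ∧ j = i + k := by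
      refine ⟨(j - i).val, ZMod.val_lt _, ?_⟩
      rw [ZMod.natCast_val, ZMod.cast_id]
      ring
    have hk0 : k ≠ 0 := by
      rintro rfl
      apply hpq
      rw [← hi, ← hj, hjk]
      simp
    have hk1 : k ≠ 1 := by
      rintro rfl
      apply hadj
      rw [← hi, ← hj, hjk]
      simpa using hnext i
    have hkm1 : k ≠ m - 1 := by
      intro h
      apply hadj
      rw [← hi, ← hj]
      refine (hcadj i j).2 (Or.inr ?_)
      rw [hjk, h, Nat.cast_sub (by omega)]
      simp
    -- values of c at natural distances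
    have hval : ∀ s t : ℕ, s < m → t < m → c (i + s) = c (i + t) → s = t := by
      intro s t hs ht h
      have h1 : (s : ZMod m) = t := add_left_cancel (hinj h)
      have h2 := congrArg ZMod.val h1
      rwa [ZMod.val_natCast_of_lt hs, ZMod.val_natCast_of_lt ht] at h2
    have hpi : p = c (i + (0 : ℕ)) := by rw [← hi]; simp
    have hqi : q = c (i + (k : ℕ)) := by rw [← hj, hjk]
    have hA : ∀ x ∈ arc c (i + 1) (k - 2), ∃ t : ℕ, 1 ≤ t ∧ t < k ∧ x = c (i + t) := by
      rintro x ⟨t, ht, rfl⟩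
      refine ⟨t + 1, by omega, by omega, ?_⟩
      congr 1
      push_cast
      ring
    have hB : ∀ x ∈ arc c (i + k + 1) (m - k - 2), ∃ t : ℕ, k < t ∧ t < m ∧ x = c (i + t) := by
      rintro x ⟨t, ht, rfl⟩
      refine ⟨k + t + 1, by omega, by omega, ?_⟩
      congr 1
      push_cast
      ring
    have hAU : arc c (i + 1) (k - 2) ⊆ U \ {p, q} := by
      intro x hx
      obtain ⟨t, h1, h2, rfl⟩ := hA x hx
      refine ⟨hcU (Set.mem_range_self _), ?_⟩
      rintro (h | h)
      · rw [hpi] at h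
        have := hval _ _ (by omega) (by omega) h
        omega
      · rw [Set.mem_singleton_iff, hqi] at h
        have := hval _ _ (by omega) (by omega) h
        omega
    have hBU : arc c (i + k + 1) (m - k - 2) ⊆ U \ {p, q} := by
      intro x hx
      obtain ⟨t, h1, h2, rfl⟩ := hB x hx
      refine ⟨hcU (Set.mem_range_self _), ?_⟩
      rintro (h | h)
      · rw [hpi] at h
        have := hval _ _ (by omega) (by omega) h
        omega
      · rw [Set.mem_singleton_iff, hqi] at h
        have := hval _ _ (by omega) (by omega) h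
        omega
    have hdis : Disjoint (arc c (i + 1) (k - 2)) (arc c (i + k + 1) (m - k - 2)) := by
      rw [Set.disjoint_left]
      intro x hx hx'
      obtain ⟨t, h1, h2, rfl⟩ := hA x hx
      obtain ⟨s, h3, h4, h5⟩ := hB _ hx'
      have := hval _ _ (by omega) (by omega) h5
      omega
    obtain ⟨K, L, hK, hL, hKL, hcov, hKc, hLc, hKLt⟩ := hPAR V G (U \ {p, q}) _ _ (kc_con hk p q)
      (con_arc hnext (i + 1) (k - 2)) (con_arc hnext (i + k + 1) (m - k - 2)) hAU hBU hdis
    have hKU : K ⊆ U := fun x hx => (hcov ▸ Or.inl hx : x ∈ U \ {p, q}).1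
    have hLU : L ⊆ U := fun x hx => (hcov ▸ Or.inr hx : x ∈ U \ {p, q}).1
    have hpK : p ∉ K := fun hx => (hcov ▸ Or.inl hx : p ∈ U \ {p, q}).2 (Or.inl rfl)
    have hpL : p ∉ L := fun hx => (hcov ▸ Or.inr hx : p ∈ U \ {p, q}).2 (Or.inl rfl)
    have hqK : q ∉ K := fun hx => (hcov ▸ Or.inl hx : q ∈ U \ {p, q}).2 (Or.inr rfl)
    have hqL : q ∉ L := fun hx => (hcov ▸ Or.inr hx : q ∈ U \ {p, q}).2 (Or.inr rfl)
    have eA0 : c (i + 1) ∈ K := hK ⟨0, by omega, by simp⟩
    have eA1 : c (i + k - 1) ∈ K := hK ⟨k - 2, le_rfl, by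
      congr 1
      rw [Nat.cast_sub (by omega)]
      push_cast
      ring⟩
    have eB0 : c (i + k + 1) ∈ L := hL ⟨0, by omega, by simp⟩
    have eB1 : c (i - 1) ∈ L := hL ⟨m - k - 2, le_rfl, by
      congr 1
      rw [Nat.sub_sub, Nat.cast_sub (by omega)]
      push_cast
      rw [ZMod.natCast_self]
      ring⟩
    have tpK : Tch G {p} K := ⟨p, rfl, _, eA0, by rw [← hi]; exact hnext i⟩
    have tpL : Tch G {p} L := ⟨p, rfl, _, eB1, by
      rw [← hi]
      have := hnext (i - 1)
      rw [sub_add_cancel] at this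
      exact this.symm⟩
    have tqK : Tch G {q} K := ⟨q, rfl, _, eA1, by
      rw [← hj, hjk]
      have := hnext (i + k - 1)
      rw [sub_add_cancel] at this
      exact this.symm⟩
    have tqL : Tch G {q} L := ⟨q, rfl, _, eB0, by
      rw [← hj, hjk]
      exact hnext _⟩
    -- the minor
    have d01 : Disjoint ({Sum.inl p, Sum.inr ⟨F', hF'⟩} : Set (V ⊕ {F : Set V // IsFace G U F})) {Sum.inl q} := by
      rw [Set.disjoint_singleton_right]
      rintro (h | h)
      · exact hpq' h.symm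
      · cases h
    have d02 : Disjoint ({Sum.inl p, Sum.inr ⟨F', hF'⟩} : Set (V ⊕ {F : Set V // IsFace G U F}))
        {Sum.inr ⟨F, hF⟩} := by
      rw [Set.disjoint_singleton_right]
      rintro (h | h)
      · cases h
      · exact hFne' h
    have d0 : ∀ S : Set V, p ∉ S → Disjoint ({Sum.inl p, Sum.inr ⟨F', hF'⟩} :
        Set (V ⊕ {F : Set V // IsFace G U F})) (Sum.inl '' S) := by
      intro S hS
      rw [Set.disjoint_left]
      rintro x (rfl | rfl)
      · exact inl_notin hS
      · exact inr_notin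
    have d12 : Disjoint ({Sum.inl q} : Set (V ⊕ {F : Set V // IsFace G U F})) {Sum.inr ⟨F, hF⟩} :=
      Set.disjoint_singleton.2 Sum.inl_ne_inr
    have d1 : ∀ S : Set V, q ∉ S → Disjoint ({Sum.inl q} : Set (V ⊕ {F : Set V // IsFace G U F}))
        (Sum.inl '' S) := fun S hS => Set.disjoint_singleton_left.2 (inl_notin hS)
    have key : ∀ i j : Fin 5, i < j →
        Disjoint ((![{Sum.inl p, Sum.inr ⟨F', hF'⟩}, {Sum.inl q}, {Sum.inr ⟨F, hF⟩}, Sum.inl '' K, Sum.inl '' L] :
          Fin 5 → Set (V ⊕ {F : Set V // IsFace G U F})) i)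
          ((![{Sum.inl p, Sum.inr ⟨F', hF'⟩}, {Sum.inl q}, {Sum.inr ⟨F, hF⟩}, Sum.inl '' K, Sum.inl '' L] :
          Fin 5 → Set (V ⊕ {F : Set V // IsFace G U F})) j) ∧
        Tch (plus G U) ((![{Sum.inl p, Sum.inr ⟨F', hF'⟩}, {Sum.inl q}, {Sum.inr ⟨F, hF⟩}, Sum.inl '' K,
          Sum.inl '' L] : Fin 5 → Set (V ⊕ {F : Set V // IsFace G U F})) i)
          ((![{Sum.inl p, Sum.inr ⟨F', hF'⟩}, {Sum.inl q}, {Sum.inr ⟨F, hF⟩}, Sum.inl '' K, Sum.inl '' L] :
          Fin 5 → Set (V ⊕ {F : Set V // IsFace G U F})) j) := by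
      intro i j hij
      fin_cases i <;> fin_cases j <;> first | exact absurd hij (by decide) | skip
      · exact ⟨d01, Sum.inr ⟨F', hF'⟩, Or.inr rfl, _, rfl, hq'⟩
      · exact ⟨d02, Sum.inl p, Or.inl rfl, _, rfl, hp⟩
      · exact ⟨d0 K hpK, tch_mono (tch_single tpK hpU hKU) (by simp) subset_rfl⟩
      · exact ⟨d0 L hpL, tch_mono (tch_single tpL hpU hLU) (by simp) subset_rfl⟩
      · exact ⟨d12, tch_face hF hq⟩
      · exact ⟨d1 K hqK, tch_single tqK hqU hKU⟩
      · exact ⟨d1 L hqL, tch_single tqL hqU hLU⟩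
      · exact ⟨disj_inr.symm, tch_symm (tch_face_set hF (hrF _) eA0)⟩
      · exact ⟨disj_inr.symm, tch_symm (tch_face_set hF (hrF _) eB0)⟩
      · exact ⟨inl_disj hKL, tch_inl hKLt hKU hLU⟩
    refine hP.1 ![{Sum.inl p, Sum.inr ⟨F', hF'⟩}, {Sum.inl q}, {Sum.inr ⟨F, hF⟩}, Sum.inl '' K, Sum.inl '' L]
      ?_ (fun i j hij => ?_) (fun i j hij => ?_)
    · intro i
      fin_cases i
      · exact con_pair (show (plus G U).Adj (Sum.inl p) (Sum.inr ⟨F', hF'⟩) from hp')
      · exact con_singleton _ _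
      · exact con_singleton _ _
      · exact con_inl hKc hKU
      · exact con_inl hLc hLU
    · rcases lt_or_gt_of_ne hij with h | h
      · exact (key i j h).1
      · exact (key j i h).1.symm
    · rcases lt_or_gt_of_ne hij with h | h
      · exact (key i j h).2
      · exact tch_symm (key j i h).2
  · -- (3)
    intro F₁ F₂ F₃ hF1 hF2 hF3 h12 h23 h13 p q hpq hp1 hq1 hp2 hq2 hp3 hq3
    have hpU := face_sub hF1 hp1
    have hqU := face_sub hF1 hq1
    have hKc : Con G (U \ {p, q}) := kc_con hk p q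
    have hKU : U \ {p, q} ⊆ U := Set.sdiff_subset
    have hdeg : ∀ a ∈ U, ∀ b : V, ∃ x ∈ U, G.Adj a x ∧ x ≠ b := by
      intro a ha b
      have h3 := (hKCA V G U).2.2.1 3 hk a ha
      by_contra hcon
      push Not at hcon
      have hsub : {x | x ∈ U ∧ G.Adj a x} ⊆ {b} := fun x hx => hcon x hx.1 hx.2
      have := Set.ncard_le_ncard hsub (Set.toFinite _)
      rw [Set.ncard_singleton] at this
      omega
    have tp : Tch G {p} (U \ {p, q}) := by
      obtain ⟨x, hx, hax, hxq⟩ := hdeg p hpU q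
      refine ⟨p, rfl, x, ⟨hx, ?_⟩, hax⟩
      rintro (h | h)
      · exact G.ne_of_adj hax h.symm
      · exact hxq h
    have tq : Tch G {q} (U \ {p, q}) := by
      obtain ⟨x, hx, hax, hxp⟩ := hdeg q hqU p
      refine ⟨q, rfl, x, ⟨hx, ?_⟩, hax⟩
      rintro (h | h)
      · exact hxp h
      · exact G.ne_of_adj hax h.symm
    have tF : ∀ F (hF : IsFace G U F), Tch (plus G U) (Sum.inl '' (U \ {p, q})) {Sum.inr ⟨F, hF⟩} := by
      intro F hF
      obtain ⟨r, hr, hrp, hrq⟩ := face_third hF p q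
      exact tch_face_set hF hr ⟨face_sub hF hr, by rintro (h | h); exacts [hrp h, hrq h]⟩
    have hpK : p ∉ U \ {p, q} := fun h => h.2 (Or.inl rfl)
    have hqK : q ∉ U \ {p, q} := fun h => h.2 (Or.inr rfl)
    have hpq' : (Sum.inl p : V ⊕ {F : Set V // IsFace G U F}) ≠ Sum.inl q := fun h => hpq (Sum.inl_injective h)
    have n12 : (Sum.inr ⟨F₁, hF1⟩ : V ⊕ {F : Set V // IsFace G U F}) ≠ Sum.inr ⟨F₂, hF2⟩ :=
      fun h => h12 (congrArg Subtype.val (Sum.inr_injective h))
    have n23 : (Sum.inr ⟨F₂, hF2⟩ : V ⊕ {F : Set V // IsFace G U F}) ≠ Sum.inr ⟨F₃, hF3⟩ :=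
      fun h => h23 (congrArg Subtype.val (Sum.inr_injective h))
    have n13 : (Sum.inr ⟨F₁, hF1⟩ : V ⊕ {F : Set V // IsFace G U F}) ≠ Sum.inr ⟨F₃, hF3⟩ :=
      fun h => h13 (congrArg Subtype.val (Sum.inr_injective h))
    refine hP.2 ![{Sum.inl p}, {Sum.inl q}, Sum.inl '' (U \ {p, q})]
      ![{Sum.inr ⟨F₁, hF1⟩}, {Sum.inr ⟨F₂, hF2⟩}, {Sum.inr ⟨F₃, hF3⟩}] ?_ ?_ ?_ ?_ ?_ ?_
    · intro i
      fin_cases i
      · exact con_singleton _ _
      · exact con_singleton _ _
      · exact con_inl hKc hKU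
    · intro i
      fin_cases i <;> exact con_singleton _ _
    · intro i j hij
      fin_cases i <;> fin_cases j <;> first | exact absurd rfl hij | exact Set.disjoint_singleton.2 hpq' |
        exact Set.disjoint_singleton.2 hpq'.symm | exact Set.disjoint_singleton_left.2 (inl_notin hpK) |
        exact Set.disjoint_singleton_left.2 (inl_notin hqK) | exact Set.disjoint_singleton_right.2 (inl_notin hpK) |
        exact Set.disjoint_singleton_right.2 (inl_notin hqK)
    · intro i j hij
      fin_cases i <;> fin_cases j <;> first | exact absurd rfl hij | exact Set.disjoint_singleton.2 n12 |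
        exact Set.disjoint_singleton.2 n12.symm | exact Set.disjoint_singleton.2 n23 |
        exact Set.disjoint_singleton.2 n23.symm | exact Set.disjoint_singleton.2 n13 |
        exact Set.disjoint_singleton.2 n13.symm
    · intro i j
      fin_cases i <;> fin_cases j <;> first | exact Set.disjoint_singleton.2 Sum.inl_ne_inr | exact disj_inr
    · intro i j
      fin_cases i <;> fin_cases j
      · exact tch_face hF1 hp1
      · exact tch_face hF2 hp2
      · exact tch_face hF3 hp3
      · exact tch_face hF1 hq1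
      · exact tch_face hF2 hq2
      · exact tch_face hF3 hq3
      · exact tF _ hF1
      · exact tF _ hF2
      · exact tF _ hF3

end Pool.Agent.Helper47.NK
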